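import Mathlib

set_option autoImplicit false

namespace Pool.Agent.Results.MP_a310d2_co.VertexDeletion

open SimpleGraph

/-- `u` and `v` are `S`-visible in `G`: some shortest `u`-`v` path has no internal vertex in `S`.
(A walk whose length is the distance is a shortest path.) -/
def SVisible {V : Type*} (G : SimpleGraph V) (S : Set V) (u v : V) : Prop :=
  ∃ p : G.Walk u v, p.length = G.dist u v ∧ ∀ w ∈ p.support, w ≠ u → w ≠ v → w ∉ S

/-- `S` is an outer mutual-visibility set of `G`. -/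
def IsOuterMVSet {V : Type*} (G : SimpleGraph V) (S : Set V) : Prop :=
  ∀ u ∈ S, ∀ v : V, SVisible G S u v

/-- The outer mutual-visibility number of a (finite) graph. -/
noncomputable def muO {V : Type*} (G : SimpleGraph V) : ℕ :=
  sSup {n : ℕ | ∃ S : Finset V, IsOuterMVSet G (S : Set V) ∧ S.card = n}

/-! ### General lemmas -/

lemma lip {V : Type*} {G : SimpleGraph V} (s : V) (f : V → ℤ)
    (hf : ∀ p q, G.Adj p q → p ≠ s → q ≠ s → |f p - f q| ≤ 1) {u v : V} (p : G.Walk u v)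
    (hs : s ∉ p.support) : |f u - f v| ≤ p.length := by
  induction p with
  | nil => simp
  | @cons a b c h p ih =>
    rw [Walk.support_cons, List.mem_cons, not_or] at hs
    have h1 := ih hs.2
    have hb : b ≠ s := fun hb => hs.2 (hb ▸ p.start_mem_support)
    have h2 := hf a b h (Ne.symm hs.1) hb
    rw [Walk.length_cons]
    push_cast
    rw [abs_le] at *
    constructor <;> linarith [h1.1, h1.2, h2.1, h2.2]

lemma conflict {V : Type*} {G : SimpleGraph V} {S : Set V} (hS : IsOuterMVSet G S) {u s : V}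
    (v : V) (hu : u ∈ S) (hs : s ∈ S) (hsu : s ≠ u) (hsv : s ≠ v) (f : V → ℤ)
    (hf : ∀ p q, G.Adj p q → p ≠ s → q ≠ s → |f p - f q| ≤ 1) (d : ℕ)
    (hd : ∃ p : G.Walk u v, p.length ≤ d) (hlt : (d : ℤ) < |f u - f v|) : False := by
  obtain ⟨p, hp, hpS⟩ := hS u hu v
  have hns : s ∉ p.support := fun hmem => hpS s hmem hsu hsv hs
  have h1 := lip s f hf p hns
  obtain ⟨q, hq⟩ := hd
  have h2 := SimpleGraph.dist_le q
  rw [hp] at h1
  have h3 : ((G.dist u v : ℕ) : ℤ) ≤ d := by exact_mod_cast h2.trans hq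
  linarith

/-- Vertices with a single neighbour are never internal on shortest paths. -/
lemma pendant_visible {V : Type*} {G : SimpleGraph V} (hG : G.Connected) (S : Set V)
    (nb : V → V) (hnb : ∀ w ∈ S, ∀ z, G.Adj w z → z = nb w) : IsOuterMVSet G S := by
  have key : ∀ w ∈ S, ∀ u, u ≠ w → G.dist w u = G.dist (nb w) u + 1 := by
    intro w hw u huw
    obtain ⟨p, hp⟩ := hG.exists_walk_length_eq_dist w u
    cases p with
    | nil => exact absurd rfl huw
    | @cons _ b _ h p =>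
      have hb := hnb w hw b h
      subst hb
      rw [Walk.length_cons] at hp
      have h1 := SimpleGraph.dist_le p
      have h2 : G.dist w u ≤ G.dist w (nb w) + G.dist (nb w) u := hG.dist_triangle
      have h3 : G.dist w (nb w) = 1 := SimpleGraph.dist_eq_one_iff_adj.mpr h
      omega
  intro u hu v
  obtain ⟨p, hp⟩ := hG.exists_walk_length_eq_dist u v
  refine ⟨p, hp, ?_⟩
  intro w hw hwu hwv hwS
  classical
  have hsplit := congrArg Walk.length (p.take_spec hw)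
  rw [Walk.length_append] at hsplit
  have h1 := SimpleGraph.dist_le (p.takeUntil w hw)
  have h2 := SimpleGraph.dist_le (p.dropUntil w hw)
  have h3 := key w hwS u (Ne.symm hwu)
  have h4 := key w hwS v (Ne.symm hwv)
  have h5 : G.dist u v ≤ G.dist u (nb w) + G.dist (nb w) v := hG.dist_triangle
  have h6 : G.dist u w = G.dist w u := SimpleGraph.dist_comm
  have h7 : G.dist u (nb w) = G.dist (nb w) u := SimpleGraph.dist_comm
  omega

lemma le_muO {V : Type*} [Finite V] (G : SimpleGraph V) (S : Finset V)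
    (hS : IsOuterMVSet G (S : Set V)) : S.card ≤ muO G := by
  have := Fintype.ofFinite V
  apply le_csSup
  · refine ⟨Fintype.card V, ?_⟩
    rintro n ⟨T, -, rfl⟩
    exact Finset.card_le_univ T
  · exact ⟨S, hS, rfl⟩

lemma muO_le {V : Type*} (G : SimpleGraph V) (m : ℕ)
    (h : ∀ S : Finset V, IsOuterMVSet G (S : Set V) → S.card ≤ m) : muO G ≤ m := by
  apply csSup_le'
  rintro n ⟨T, hT, rfl⟩
  exact h T hT

/-! ### The graphs -/

/-- Labels of the vertices: the spine `(0, h)`, `h ≤ 5 k`, and the legs `(i, h)`,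
`1 ≤ i ≤ k`, `1 ≤ h < 5 i`. -/
def Valid (k : ℕ) (p : ℕ × ℕ) : Prop :=
  (p.1 = 0 ∧ p.2 ≤ 5 * k) ∨ (1 ≤ p.1 ∧ p.1 ≤ k ∧ 1 ≤ p.2 ∧ p.2 < 5 * p.1)

/-- Vertices. -/
abbrev Vtx (k : ℕ) : Type := {p : ℕ × ℕ // Valid k p}

/-- Upward edges. -/
def Up (p q : ℕ × ℕ) : Prop :=
  (p.1 = q.1 ∧ p.2 + 1 = q.2) ∨ (p.1 = 0 ∧ p.2 = 0 ∧ 1 ≤ q.1 ∧ q.2 = 1) ∨
    (1 ≤ p.1 ∧ p.2 + 1 = 5 * p.1 ∧ q.1 = 0 ∧ q.2 = 5 * p.1)

/-- The graph: a path `(0,0), ..., (0,5k)` and, for `1 ≤ i ≤ k`, a further path of length `5 i`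
from `(0,0)` to `(0,5i)`. -/
def Gr (k : ℕ) : SimpleGraph (Vtx k) where
  Adj p q := Up p.1 q.1 ∨ Up q.1 p.1
  symm := ⟨fun p q h => h.symm⟩
  loopless := ⟨fun p h => by
    simp only [Up] at h
    omega⟩

lemma finite_vtx (k : ℕ) : Finite (Vtx k) := by
  have : (Set.Finite {p : ℕ × ℕ | Valid k p}) := by
    apply Set.Finite.subset ((Set.finite_Iic k).prod (Set.finite_Iic (5 * k)))
    rintro ⟨a, b⟩ h
    simp only [Valid, Set.mem_ofPred_eq] at h
    simp only [Set.mem_prod, Set.mem_Iic]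
    omega
  exact this

lemma adj_of_up {k : ℕ} {p q : Vtx k} (h : Up p.1 q.1) : (Gr k).Adj p q := Or.inl h

lemma adj_iff {k : ℕ} {p q : Vtx k} : (Gr k).Adj p q ↔ Up p.1 q.1 ∨ Up q.1 p.1 := Iff.rfl

/-- vertical walk inside one leg or the spine -/
lemma walk_up {k : ℕ} (i : ℕ) (n : ℕ) : ∀ (h : ℕ) (hv : Valid k (i, h)) (hv' : Valid k (i, h + n)),
    ∃ p : (Gr k).Walk ⟨(i, h), hv⟩ ⟨(i, h + n), hv'⟩, p.length ≤ n := by
  induction n with
  | zero => intro h hv hv'; exact ⟨Walk.nil, by simp⟩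
  | succ n ih =>
    intro h hv hv'
    have hv1 : Valid k (i, h + 1) := by
      simp only [Valid] at *
      omega
    have hv2 : Valid k (i, h + 1 + n) := by
      have : h + 1 + n = h + (n + 1) := by ring
      rw [this]; exact hv'
    obtain ⟨p, hp⟩ := ih (h + 1) hv1 hv2
    have e : (⟨(i, h + 1 + n), hv2⟩ : Vtx k) = ⟨(i, h + (n + 1)), hv'⟩ := by
      apply Subtype.ext
      simp only [Prod.mk.injEq, true_and]
      ring
    have hadj : (Gr k).Adj ⟨(i, h), hv⟩ ⟨(i, h + 1), hv1⟩ := Or.inl (Or.inl ⟨rfl, rfl⟩)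
    refine ⟨(Walk.cons hadj p).copy rfl e, ?_⟩
    rw [Walk.length_copy, Walk.length_cons]
    omega

/-- There is a walk of length at most `d`. -/
def W {V : Type*} (G : SimpleGraph V) (p q : V) (d : ℕ) : Prop := ∃ w : G.Walk p q, w.length ≤ d

lemma W.trans {V : Type*} {G : SimpleGraph V} {p q r : V} {d e : ℕ} (h1 : W G p q d)
    (h2 : W G q r e) : W G p r (d + e) := by
  obtain ⟨w1, h1⟩ := h1
  obtain ⟨w2, h2⟩ := h2
  exact ⟨w1.append w2, by rw [Walk.length_append]; omega⟩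

lemma W.symm {V : Type*} {G : SimpleGraph V} {p q : V} {d : ℕ} (h1 : W G p q d) : W G q p d := by
  obtain ⟨w1, h1⟩ := h1
  exact ⟨w1.reverse, by rw [Walk.length_reverse]; omega⟩

lemma W.mono {V : Type*} {G : SimpleGraph V} {p q : V} {d e : ℕ} (h1 : W G p q d) (h : d ≤ e) :
    W G p q e := by
  obtain ⟨w1, h1⟩ := h1
  exact ⟨w1, h1.trans h⟩

lemma W.of_adj {V : Type*} {G : SimpleGraph V} {p q : V} (h : G.Adj p q) : W G p q 1 :=
  ⟨h.toWalk, by simp⟩

lemma W_same {k : ℕ} (p q : Vtx k) (h1 : p.1.1 = q.1.1) (h2 : p.1.2 ≤ q.1.2) :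
    W (Gr k) p q (q.1.2 - p.1.2) := by
  obtain ⟨⟨i, h⟩, hp⟩ := p
  obtain ⟨⟨j, h'⟩, hq⟩ := q
  simp only at h1 h2
  subst h1
  obtain ⟨n, rfl⟩ := Nat.exists_eq_add_of_le h2
  obtain ⟨w, hw⟩ := walk_up i n h hp hq
  exact ⟨w, by simpa using hw⟩

/-- from the bottom `x = (0,0)` up the leg `i` -/
lemma W_bottom {k : ℕ} (x p : Vtx k) (hx : x.1 = (0, 0)) (hp : 1 ≤ p.1.1) :
    W (Gr k) x p p.1.2 := by
  have hv := p.2
  have hv1 : Valid k (p.1.1, 1) := by
    simp only [Valid] at *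
    omega
  have h2 := W_same (⟨(p.1.1, 1), hv1⟩ : Vtx k) p rfl (by simp only [Valid] at hv; simp only; omega)
  have hx1 : x.1.1 = 0 ∧ x.1.2 = 0 := by rw [hx]; exact ⟨rfl, rfl⟩
  have hadj : (Gr k).Adj x ⟨(p.1.1, 1), hv1⟩ := by
    left
    simp only [Up, and_true]
    omega
  refine ((W.of_adj hadj).trans h2).mono ?_
  simp only [Valid] at hv
  simp only
  omega

/-- from the leg `i` to the spine vertex `(0, 5 i)` -/
lemma W_top {k : ℕ} (p q : Vtx k) (hp : 1 ≤ p.1.1) (hq : q.1 = (0, 5 * p.1.1)) :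
    W (Gr k) p q (5 * p.1.1 - p.1.2) := by
  have hv := p.2
  have hv1 : Valid k (p.1.1, 5 * p.1.1 - 1) := by
    simp only [Valid] at *
    omega
  have h2 := W_same p (⟨(p.1.1, 5 * p.1.1 - 1), hv1⟩ : Vtx k) rfl
    (by simp only [Valid] at hv; simp only; omega)
  have hq1 : q.1.1 = 0 ∧ q.1.2 = 5 * p.1.1 := by rw [hq]; exact ⟨rfl, rfl⟩
  have hadj : (Gr k).Adj ⟨(p.1.1, 5 * p.1.1 - 1), hv1⟩ q := by
    left
    simp only [Up]
    omega
  refine (h2.trans (W.of_adj hadj)).mono ?_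
  simp only [Valid] at hv
  simp only
  omega

/-! ### Conflicts -/

lemma ne_iff_label {k : ℕ} {p q : Vtx k} : p ≠ q ↔ ¬ (p.1.1 = q.1.1 ∧ p.1.2 = q.1.2) := by
  rw [not_iff_not, Subtype.ext_iff, Prod.ext_iff]

/-- Two vertices of the same leg are in conflict. -/
lemma conflict_leg {k : ℕ} {S : Set (Vtx k)} (hS : IsOuterMVSet (Gr k) S) (u s : Vtx k)
    (hu : u ∈ S) (hs : s ∈ S) (hi : 1 ≤ u.1.1) (hsame : s.1.1 = u.1.1) (hlt : s.1.2 < u.1.2) :
    False := by
  have hvu := u.2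
  have hvs := s.2
  have hx : Valid k (0, 0) := Or.inl ⟨rfl, Nat.zero_le _⟩
  simp only [Valid] at hvu hvs
  refine conflict hS (⟨(0, 0), hx⟩ : Vtx k) hu hs ?_ ?_
    (fun p => if p.1.1 = u.1.1 ∧ s.1.2 < p.1.2 then (p.1.2 : ℤ) - 10 * u.1.1 else -(p.1.2 : ℤ))
    ?_ u.1.2 (W_bottom _ u rfl hi).symm ?_
  · rw [ne_iff_label]; omega
  · rw [ne_iff_label]; simp only; omega
  · intro p q hadj hps hqs
    have hvp := p.2
    have hvq := q.2
    rw [ne_iff_label] at hps hqs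
    rw [adj_iff] at hadj
    simp only [Valid, Up] at *
    rw [abs_le]
    split_ifs <;> omega
  · simp only [true_and]
    split_ifs <;> first | omega | (rw [lt_abs]; omega)

/-- Two vertices of the spine, both different from the ends, are in conflict. -/
lemma conflict_spine {k : ℕ} {S : Set (Vtx k)} (hS : IsOuterMVSet (Gr k) S) (u s : Vtx k)
    (hu : u ∈ S) (hs : s ∈ S) (hu0 : u.1.1 = 0) (hs0 : s.1.1 = 0) (hpos : 1 ≤ u.1.2)
    (hlt : u.1.2 < s.1.2) (hk : s.1.2 < 5 * k) : False := by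
  have hv : Valid k (0, s.1.2 + 1) := Or.inl ⟨rfl, by simp only; omega⟩
  refine conflict hS (⟨(0, s.1.2 + 1), hv⟩ : Vtx k) hu hs ?_ ?_
    (fun p => if (p.1.1 = 0 ∧ p.1.2 < s.1.2) ∨ (1 ≤ p.1.1 ∧ 5 * p.1.1 ≤ s.1.2) then -(p.1.2 : ℤ)
      else (p.1.2 : ℤ))
    ?_ (s.1.2 + 1 - u.1.2) (W_same u _ hu0 (by simp only; omega)) ?_
  · rw [ne_iff_label]; omega
  · rw [ne_iff_label]; simp only; omega
  · intro p q hadj hps hqs
    have hvp := p.2
    have hvq := q.2
    rw [ne_iff_label] at hps hqs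
    rw [adj_iff] at hadj
    simp only [Valid, Up] at *
    rw [abs_le]
    split_ifs <;> omega
  · simp only [true_and]
    split_ifs <;> first | omega | (rw [lt_abs]; omega)

/-- Vertices `(i, a)`, `(j, b)` in different legs `i < j` with `a + b ≥ 5 j + 2` are in
conflict. -/
lemma conflict_high {k : ℕ} {S : Set (Vtx k)} (hS : IsOuterMVSet (Gr k) S) (u s : Vtx k)
    (hu : u ∈ S) (hs : s ∈ S) (hi : 1 ≤ u.1.1) (hij : u.1.1 < s.1.1)
    (hab : 5 * s.1.1 + 2 ≤ u.1.2 + s.1.2) : False := by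
  have hvu := u.2
  have hvs := s.2
  simp only [Valid] at hvu hvs
  have hv : Valid k (s.1.1, s.1.2 - 1) := by simp only [Valid]; omega
  have hv1 : Valid k (0, 5 * u.1.1) := Or.inl ⟨rfl, by simp only; omega⟩
  have hv2 : Valid k (0, 5 * s.1.1) := Or.inl ⟨rfl, by simp only; omega⟩
  have w1 := W_top u (⟨(0, 5 * u.1.1), hv1⟩ : Vtx k) hi rfl
  have w2 := W_same (⟨(0, 5 * u.1.1), hv1⟩ : Vtx k) (⟨(0, 5 * s.1.1), hv2⟩ : Vtx k) rfl
    (by simp only; omega)
  have w3 := (W_top (⟨(s.1.1, s.1.2 - 1), hv⟩ : Vtx k) (⟨(0, 5 * s.1.1), hv2⟩ : Vtx k)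
    (by simp only; omega) rfl).symm
  have w := (w1.trans w2).trans w3
  simp only at w
  refine conflict hS (⟨(s.1.1, s.1.2 - 1), hv⟩ : Vtx k) hu hs ?_ ?_
    (fun p => if p.1.1 = s.1.1 ∧ p.1.2 < s.1.2 then (p.1.2 : ℤ) else -(p.1.2 : ℤ))
    ?_ _ w ?_
  · rw [ne_iff_label]; omega
  · rw [ne_iff_label]; simp only; omega
  · intro p q hadj hps hqs
    have hvp := p.2
    have hvq := q.2
    rw [ne_iff_label] at hps hqs
    rw [adj_iff] at hadj
    simp only [Valid, Up] at *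
    rw [abs_le]
    split_ifs <;> omega
  · simp only [true_and]
    split_ifs <;> first | omega | (rw [lt_abs]; omega)

/-- Vertices `(i, a)`, `(j, b)` in different legs `i < j` with `a + b ≤ 5 j - 2` are in
conflict. -/
lemma conflict_low {k : ℕ} {S : Set (Vtx k)} (hS : IsOuterMVSet (Gr k) S) (u s : Vtx k)
    (hu : u ∈ S) (hs : s ∈ S) (hi : 1 ≤ u.1.1) (hij : u.1.1 < s.1.1)
    (hab : u.1.2 + s.1.2 + 2 ≤ 5 * s.1.1) : False := by
  have hvu := u.2
  have hvs := s.2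
  simp only [Valid] at hvu hvs
  have hx : Valid k (0, 0) := Or.inl ⟨rfl, Nat.zero_le _⟩
  have hv : Valid k (s.1.1, s.1.2 + 1) := by simp only [Valid]; omega
  have w1 := (W_bottom (⟨(0, 0), hx⟩ : Vtx k) u rfl hi).symm
  have w2 := (W_bottom (⟨(0, 0), hx⟩ : Vtx k) (⟨(s.1.1, s.1.2 + 1), hv⟩ : Vtx k) rfl
    (by simp only; omega))
  have w := w1.trans w2
  simp only at w
  refine conflict hS (⟨(s.1.1, s.1.2 + 1), hv⟩ : Vtx k) hu hs ?_ ?_
    (fun p => if p.1.1 = s.1.1 ∧ s.1.2 < p.1.2 then 10 * (s.1.1 : ℤ) - (p.1.2 : ℤ)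
      else (p.1.2 : ℤ))
    ?_ _ w ?_
  · rw [ne_iff_label]; omega
  · rw [ne_iff_label]; simp only; omega
  · intro p q hadj hps hqs
    have hvp := p.2
    have hvq := q.2
    rw [ne_iff_label] at hps hqs
    rw [adj_iff] at hadj
    simp only [Valid, Up] at *
    rw [abs_le]
    split_ifs <;> omega
  · simp only [true_and]
    split_ifs <;> first | omega | (rw [lt_abs]; omega)

/-! ### The upper bound for `Gr k` -/

lemma legs_card {k : ℕ} (S : Finset (Vtx k)) (hS : IsOuterMVSet (Gr k) (S : Set (Vtx k))) :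
    (S.filter (fun p => 1 ≤ p.1.1)).card ≤ 3 := by
  by_contra hcon
  push Not at hcon
  set T := S.filter (fun p => 1 ≤ p.1.1) with hT
  have hinj : Set.InjOn (fun p : Vtx k => p.1.1) (T : Set (Vtx k)) := by
    intro p hp q hq hpq
    simp only at hpq
    have hp' := Finset.mem_filter.mp (Finset.mem_coe.mp hp)
    have hq' := Finset.mem_filter.mp (Finset.mem_coe.mp hq)
    by_contra hne
    have hne' := (ne_iff_label (p := p) (q := q)).mp hne
    rcases Nat.lt_trichotomy p.1.2 q.1.2 with h | h | h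
    · exact conflict_leg hS q p hq'.1 hp'.1 hq'.2 hpq h
    · exact hne' ⟨hpq, h⟩
    · exact conflict_leg hS p q hp'.1 hq'.1 hp'.2 hpq.symm h
  have hcard : (T.image (fun p : Vtx k => p.1.1)).card = T.card := Finset.card_image_of_injOn hinj
  set e := (T.image (fun p : Vtx k => p.1.1)).orderEmbOfFin rfl with he
  have hmem : ∀ i, ∃ p ∈ T, p.1.1 = e i := by
    intro i
    have := (T.image (fun p : Vtx k => p.1.1)).orderEmbOfFin_mem rfl i
    rw [Finset.mem_image] at this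
    exact this
  have h4 : 3 < (T.image (fun p : Vtx k => p.1.1)).card := by omega
  obtain ⟨p0, hp0, e0⟩ := hmem ⟨0, by omega⟩
  obtain ⟨p1, hp1, e1⟩ := hmem ⟨1, by omega⟩
  obtain ⟨p2, hp2, e2⟩ := hmem ⟨2, by omega⟩
  obtain ⟨p3, hp3, e3⟩ := hmem ⟨3, by omega⟩
  have l01 : p0.1.1 < p1.1.1 := by
    rw [e0, e1]; exact e.strictMono (by simp [Fin.lt_def])
  have l12 : p1.1.1 < p2.1.1 := by
    rw [e1, e2]; exact e.strictMono (by simp [Fin.lt_def])
  have l23 : p2.1.1 < p3.1.1 := by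
    rw [e2, e3]; exact e.strictMono (by simp [Fin.lt_def])
  rw [hT, Finset.mem_filter] at hp0 hp1 hp2 hp3
  have key : ∀ p q : Vtx k, p ∈ S → q ∈ S → 1 ≤ p.1.1 → p.1.1 < q.1.1 →
      p.1.2 + q.1.2 < 5 * q.1.1 + 2 ∧ 5 * q.1.1 < p.1.2 + q.1.2 + 2 := by
    intro p q hp hq h1 hlt
    constructor
    · by_contra h
      push Not at h
      exact conflict_high hS p q hp hq h1 hlt h
    · by_contra h
      push Not at h
      exact conflict_low hS p q hp hq h1 hlt h
  have k01 := key p0 p1 hp0.1 hp1.1 hp0.2 l01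
  have k02 := key p0 p2 hp0.1 hp2.1 hp0.2 (l01.trans l12)
  have k13 := key p1 p3 hp1.1 hp3.1 hp1.2 (l12.trans l23)
  have k23 := key p2 p3 hp2.1 hp3.1 hp2.2 l23
  omega

lemma spine_card {k : ℕ} (S : Finset (Vtx k)) (hS : IsOuterMVSet (Gr k) (S : Set (Vtx k))) :
    (S.filter (fun p => ¬ 1 ≤ p.1.1)).card ≤ 3 := by
  classical
  have hinj : Set.InjOn (fun p : Vtx k => if p.1.2 = 0 then 0 else if p.1.2 = 5 * k then 2 else 1)
      ((S.filter (fun p => ¬ 1 ≤ p.1.1) : Finset (Vtx k)) : Set (Vtx k)) := by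
    intro p hp q hq hpq
    simp only at hpq
    have hp' := Finset.mem_filter.mp (Finset.mem_coe.mp hp)
    have hq' := Finset.mem_filter.mp (Finset.mem_coe.mp hq)
    by_contra hne
    have hne' := (ne_iff_label (p := p) (q := q)).mp hne
    have hvp := p.2
    have hvq := q.2
    simp only [Valid] at hvp hvq
    have h1 : ∀ u s : Vtx k, u ∈ S → s ∈ S → u.1.1 = 0 → s.1.1 = 0 → 1 ≤ u.1.2 →
        u.1.2 < s.1.2 → s.1.2 < 5 * k → False := fun u s hu hs => conflict_spine hS u s hu hs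
    have h2 : ¬ (p.1.1 = 0 ∧ q.1.1 = 0 ∧ 1 ≤ p.1.2 ∧ p.1.2 < q.1.2 ∧ q.1.2 < 5 * k) :=
      fun h => h1 p q hp'.1 hq'.1 h.1 h.2.1 h.2.2.1 h.2.2.2.1 h.2.2.2.2
    have h3 : ¬ (q.1.1 = 0 ∧ p.1.1 = 0 ∧ 1 ≤ q.1.2 ∧ q.1.2 < p.1.2 ∧ p.1.2 < 5 * k) :=
      fun h => h1 q p hq'.1 hp'.1 h.1 h.2.1 h.2.2.1 h.2.2.2.1 h.2.2.2.2
    have h4 := hp'.2
    have h5 := hq'.2
    clear h1 hp hq hp' hq' hne hS
    split_ifs at hpq <;> omega
  have hmaps : ∀ p ∈ S.filter (fun p => ¬ 1 ≤ p.1.1),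
      (fun p : Vtx k => if p.1.2 = 0 then 0 else if p.1.2 = 5 * k then 2 else 1) p ∈
        Finset.range 3 := by
    intro p _
    simp only [Finset.mem_range]
    split_ifs <;> omega
  have := Finset.card_le_card_of_injOn _ hmaps hinj
  simpa using this

lemma muO_Gr_le (k : ℕ) : muO (Gr k) ≤ 6 := by
  apply muO_le
  intro S hS
  have h1 := legs_card S hS
  have h2 := spine_card S hS
  have h3 := Finset.card_filter_add_card_filter_not (s := S) (fun p : Vtx k => 1 ≤ p.1.1)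
  omega

/-! ### Connectedness and the deleted graph -/

/-- the vertex to be deleted -/
def bot (k : ℕ) : Vtx k := ⟨(0, 0), Or.inl ⟨rfl, Nat.zero_le _⟩⟩

/-- the graph with the vertex deleted -/
abbrev Del (k : ℕ) : SimpleGraph ({bot k}ᶜ : Set (Vtx k)) := (Gr k).induce ({bot k}ᶜ : Set (Vtx k))

lemma exists_up {k : ℕ} (p : Vtx k) (hp : ¬ (p.1.1 = 0 ∧ p.1.2 = 5 * k)) :
    ∃ q : Vtx k, Up p.1 q.1 ∧ q.1.2 = p.1.2 + 1 := by
  have hv := p.2
  simp only [Valid] at hv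
  by_cases h : 1 ≤ p.1.1 ∧ p.1.2 + 1 = 5 * p.1.1
  · refine ⟨⟨(0, 5 * p.1.1), Or.inl ⟨rfl, by simp only; omega⟩⟩, ?_, ?_⟩
    · exact Or.inr (Or.inr ⟨h.1, h.2, rfl, rfl⟩)
    · simp only; omega
  · refine ⟨⟨(p.1.1, p.1.2 + 1), by simp only [Valid]; omega⟩, ?_, rfl⟩
    exact Or.inl ⟨rfl, rfl⟩

lemma conn_Del (k : ℕ) (hk : 1 ≤ k) : (Del k).Connected := by
  have htop : (⟨(0, 5 * k), Or.inl ⟨rfl, le_rfl⟩⟩ : Vtx k) ∈ ({bot k}ᶜ : Set (Vtx k)) := by
    simp only [Set.mem_compl_iff, Set.mem_singleton_iff]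
    rw [← ne_eq, ne_iff_label]
    simp only [bot]
    omega
  have key : ∀ (n : ℕ) (p : ({bot k}ᶜ : Set (Vtx k))), 5 * k - p.1.1.2 = n →
      (Del k).Reachable p ⟨_, htop⟩ := by
    intro n
    induction n using Nat.strong_induction_on with
    | _ n ih =>
      intro p hn
      by_cases hp : p.1.1.1 = 0 ∧ p.1.1.2 = 5 * k
      · have : p = ⟨_, htop⟩ := by
          apply Subtype.ext
          apply Subtype.ext
          exact Prod.ext hp.1 hp.2
        rw [this]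
      · obtain ⟨q, hup, hq⟩ := exists_up p.1 hp
        have hvp := p.1.2
        simp only [Valid] at hvp
        have hqmem : q ∈ ({bot k}ᶜ : Set (Vtx k)) := by
          simp only [Set.mem_compl_iff, Set.mem_singleton_iff]
          rw [← ne_eq, ne_iff_label]
          simp only [bot]
          omega
        have hadj : (Del k).Adj p ⟨q, hqmem⟩ := Or.inl hup
        refine hadj.reachable.trans (ih (5 * k - q.1.2) ?_ ⟨q, hqmem⟩ rfl)
        omega
  rw [SimpleGraph.connected_iff_exists_forall_reachable]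
  exact ⟨⟨_, htop⟩, fun p => (key _ p rfl).symm⟩

lemma conn_Gr (k : ℕ) (hk : 1 ≤ k) : (Gr k).Connected := by
  have h := conn_Del k hk
  have hv1 : Valid k (0, 1) := Or.inl ⟨rfl, by simp only; omega⟩
  have hne : (⟨(0, 1), hv1⟩ : Vtx k) ∈ ({bot k}ᶜ : Set (Vtx k)) := by
    simp only [Set.mem_compl_iff, Set.mem_singleton_iff]
    rw [← ne_eq, ne_iff_label]
    simp only [bot]
    omega
  rw [SimpleGraph.connected_iff_exists_forall_reachable]
  refine ⟨⟨(0, 1), hv1⟩, fun p => ?_⟩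
  by_cases hp : p = bot k
  · subst hp
    have : (Gr k).Adj ⟨(0, 1), hv1⟩ (bot k) := Or.inr (Or.inl ⟨rfl, rfl⟩)
    exact this.reachable
  · have h1 := h.preconnected ⟨_, hne⟩ ⟨p, hp⟩
    have h2 := h1.map (SimpleGraph.Embedding.induce (G := Gr k) ({bot k}ᶜ : Set (Vtx k))).toHom
    exact h2

/-- the leaves of the deleted graph -/
def leafEmb (k : ℕ) : Fin k ↪ ({bot k}ᶜ : Set (Vtx k)) where
  toFun i := ⟨⟨((i : ℕ) + 1, 1), Or.inr ⟨by simp only; omega, by simp only; omega, le_rfl,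
    by simp only; omega⟩⟩, by
      simp only [Set.mem_compl_iff, Set.mem_singleton_iff]
      rw [← ne_eq, ne_iff_label]
      simp only [bot]
      omega⟩
  inj' i j h := by
    have h1 := congrArg (fun z : ({bot k}ᶜ : Set (Vtx k)) => z.1.1.1) h
    simp only at h1
    apply Fin.ext
    omega

lemma le_muO_Del (k : ℕ) (hk : 1 ≤ k) : k ≤ muO (Del k) := by
  classical
  have hfin := finite_vtx k
  have hS : IsOuterMVSet (Del k) ((Finset.univ.map (leafEmb k) : Finset _) : Set _) := by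
    apply pendant_visible (conn_Del k hk) _
      (fun w => if h : Valid k (w.1.1.1, 2) ∧ 1 ≤ w.1.1.1 then
        ⟨⟨(w.1.1.1, 2), h.1⟩, by
          simp only [Set.mem_compl_iff, Set.mem_singleton_iff]
          rw [← ne_eq, ne_iff_label]
          simp only [bot]
          omega⟩ else w)
    intro w hw z hwz
    rw [Finset.mem_coe, Finset.mem_map] at hw
    obtain ⟨i, -, rfl⟩ := hw
    have hvz := z.1.2
    have hzb : z.1 ≠ bot k := z.2
    rw [ne_iff_label] at hzb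
    have hA : (leafEmb k i).1.1.1 = (i : ℕ) + 1 := rfl
    have hB : (leafEmb k i).1.1.2 = 1 := rfl
    have hi := i.2
    have hwz' : Up (leafEmb k i).1.1 z.1.1 ∨ Up z.1.1 (leafEmb k i).1.1 := hwz
    have hval : Valid k (((leafEmb k i).1.1.1, 2) : ℕ × ℕ) ∧ 1 ≤ (leafEmb k i).1.1.1 := by
      simp only [Valid]
      omega
    rw [dif_pos hval]
    have hb1 : (bot k).1.1 = 0 := rfl
    have hb2 : (bot k).1.2 = 0 := rfl
    apply Subtype.ext
    apply Subtype.ext
    simp only [Up, Valid] at hvz hwz' ⊢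
    apply Prod.ext
    · simp only; omega
    · simp only; omega
  have := le_muO (Del k) _ hS
  simpa using this

end Pool.Agent.Results.MP_a310d2_co.VertexDeletion

open Pool.Agent.Results.MP_a310d2_co.VertexDeletion in
/-- For all real `a`, `b` there are a finite connected graph `G` and a vertex `x` with `G - x`
connected such that `μ_o(G) ≤ 6` and `μ_o(G - x) > a μ_o(G) + b`. -/
theorem Pool.Agent.Results.MP_a310d2_co.VertexDeletion.result :
    ∀ a b : ℝ, ∃ (V : Type) (_ : Finite V) (G : SimpleGraph V) (x : V),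
      G.Connected ∧ (G.induce ({x}ᶜ : Set V)).Connected ∧ muO G ≤ 6 ∧
      a * (muO G : ℝ) + b < (muO (G.induce ({x}ᶜ : Set V)) : ℝ) := by
  intro a b
  obtain ⟨n, hn⟩ := exists_nat_gt (|a| * 6 + |b|)
  have hpos : 0 ≤ |a| * 6 + |b| := by positivity
  have hn1 : 1 ≤ n := by
    have : (0 : ℝ) < n := hpos.trans_lt hn
    exact_mod_cast this
  refine ⟨Vtx n, finite_vtx n, Gr n, bot n, conn_Gr n hn1, conn_Del n hn1, muO_Gr_le n, ?_⟩
  have h1 : (n : ℝ) ≤ muO (Del n) := by exact_mod_cast le_muO_Del n hn1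
  have h2 : (muO (Gr n) : ℝ) ≤ 6 := by exact_mod_cast muO_Gr_le n
  have h3 : a * (muO (Gr n) : ℝ) ≤ |a| * 6 := by
    have h4 : a * (muO (Gr n) : ℝ) ≤ |a| * (muO (Gr n) : ℝ) :=
      mul_le_mul_of_nonneg_right (le_abs_self a) (Nat.cast_nonneg _)
    have h5 : |a| * (muO (Gr n) : ℝ) ≤ |a| * 6 := mul_le_mul_of_nonneg_left h2 (abs_nonneg a)
    exact h4.trans h5
  have h6 := le_abs_self b
  show a * (muO (Gr n) : ℝ) + b < (muO (Del n) : ℝ)
  linarith
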